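import Pool.Agent.W684.SG.Stm

/-!
# From forcing to continuous readings (S_READ from S_FUS)
-/

set_option autoImplicit false

namespace Pool.Agent.W891.SG

open Cardinal MeasureTheory Pool.Agent.Helper669.Forcing Pool.Agent.W684.SG

universe u

section

variable {K : Type u}

theorem fill_val (q : Cond K) (z : K × ℕ → Bool) (F : Finset (K × ℕ)) (k : K) (n : ℕ) :
    (q.val k n = none ∧ (k, n) ∈ F ∧ (fill q z F).val k n = some (z (k, n))) ∨
      (¬ (q.val k n = none ∧ (k, n) ∈ F) ∧ (fill q z F).val k n = q.val k n) := by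
  classical
  by_cases h : q.val k n = none ∧ (k, n) ∈ F
  · left
    refine ⟨h.1, h.2, ?_⟩
    simp only [fill]
    rw [if_pos h]
  · right
    refine ⟨h, ?_⟩
    simp only [fill]
    rw [if_neg h]

theorem fill_le (q : Cond K) (z : K × ℕ → Bool) (F : Finset (K × ℕ)) : fill q z F ≤ q := by
  intro k n b hb
  rcases fill_val q z F k n with ⟨h, _, _⟩ | ⟨_, h⟩
  · rw [h] at hb; exact absurd hb (by simp)
  · rw [h]; exact hb

theorem decides_fill (q : Cond K) (z : K × ℕ → Bool) (F : Finset (K × ℕ)) :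
    Decides (fill q z F) F := by
  intro d hd
  rcases fill_val q z F d.1 d.2 with ⟨_, _, h⟩ | ⟨h, h'⟩
  · rw [h]; simp
  · rw [h']
    intro h0
    exact h ⟨h0, hd⟩

theorem extends_fill {q : Cond K} {z : K × ℕ → Bool} (hz : Extends z q) (F : Finset (K × ℕ)) :
    Extends z (fill q z F) := by
  intro k n b hb
  rcases fill_val q z F k n with ⟨_, _, h⟩ | ⟨_, h⟩
  · rw [h] at hb
    exact Option.some.inj hb
  · rw [h] at hb
    exact hz k n b hb

theorem le_fill {q r : Cond K} {z : K × ℕ → Bool} {F : Finset (K × ℕ)} (hr : r ≤ q)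
    (hF : Decides r F) (hz : Extends z r) : r ≤ fill q z F := by
  intro k n b hb
  rcases fill_val q z F k n with ⟨_, hm, h⟩ | ⟨_, h⟩
  · rw [h] at hb
    have hd := hF (k, n) hm
    obtain ⟨b', hb'⟩ := Option.ne_none_iff_exists'.1 hd
    have h2 := hz k n b' hb'
    have h3 := Option.some.inj hb
    rw [← h3, h2]
    exact hb'
  · rw [h] at hb
    exact hr k n b hb

theorem extends_of_le {r q : Cond K} {z : K × ℕ → Bool} (hr : r ≤ q) (hz : Extends z r) :
    Extends z q := fun k n b hb => hz k n b (hr k n b hb)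

theorem decides_mono {r : Cond K} {F F' : Finset (K × ℕ)} (h : F ⊆ F') (hr : Decides r F') :
    Decides r F := fun d hd => hr d (h hd)

theorem decides_of_le {r q : Cond K} {F : Finset (K × ℕ)} (hr : r ≤ q) (hq : Decides q F) :
    Decides r F := by
  intro d hd
  obtain ⟨b, hb⟩ := Option.ne_none_iff_exists'.1 (hq d hd)
  rw [hr _ _ _ hb]
  simp

theorem fill_congr_le {q : Cond K} {z z' : K × ℕ → Bool} {F : Finset (K × ℕ)}
    (h : ∀ d ∈ F, z d = z' d) : fill q z F ≤ fill q z' F := by
  intro k n b hb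
  rcases fill_val q z' F k n with ⟨h0, hm, h'⟩ | ⟨hn, h'⟩
  · rw [h'] at hb
    rcases fill_val q z F k n with ⟨_, _, h1⟩ | ⟨hn, _⟩
    · rw [h1, h (k, n) hm]; exact hb
    · exact absurd ⟨h0, hm⟩ hn
  · rw [h'] at hb
    exact fill_le q z F k n b hb

end

open Classical in
theorem read (hF : S_FUS) : S_READ := by
  intro K q ψ c Eψ Ec hψ hEψ hEc q' hq' hIn
  obtain ⟨r, hr, W, hW, hall⟩ := mem_fex.1 hIn q' le_rfl
  obtain ⟨s, hs, EW, hEW⟩ := hF K r (fun n => {s | ∃ j, s ∈ meets (W n j)})
    (by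
      rintro n p ⟨j, hj⟩ p' hp'
      exact ⟨j, down_meets _ _ hj _ hp'⟩)
    (by
      intro n r' hr'
      obtain ⟨t, ht, j, hj⟩ := IsFun.total (down_IsFun W r hW r' hr') n
      exact ⟨t, ht, j, hj⟩)
  have hv : ∀ (n : ℕ) (U : Finset (K × ℕ)), ∃ j,
      fill s (fun d => decide (d ∈ U)) (EW n) ∈ meets (W n j) := fun n U =>
    hEW n _ (fill_le _ _ _) (decides_fill _ _ _)
  choose vw hvw using hv
  refine ⟨s, hs.trans hr, EW, vw, hs.trans (hr.trans hq'), ?_⟩
  intro z hz l hl a ha
  set H : Finset (K × ℕ) :=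
    Ec a l ∪ (Finset.range l.length).biUnion (fun i => EW i ∪ Eψ i) with hH
  set s' := fill s z H with hs'def
  have hs' : s' ≤ s := fill_le _ _ _
  have hzs' : Extends z s' := extends_fill hz H
  have hdec : Decides s' H := decides_fill _ _ _
  have hsq : s' ≤ q := hs'.trans (hs.trans (hr.trans hq'))
  have hW' : ∀ i, i < l.length → s' ∈ meets (W i (l.getD i 0)) := by
    intro i hi
    have hsub : EW i ⊆ H := by
      intro d hd
      refine Finset.mem_union_right _ (Finset.mem_biUnion.2 ⟨i, Finset.mem_range.2 hi, ?_⟩)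
      exact Finset.mem_union_left _ hd
    have h1 : s' ≤ fill s z (EW i) := le_fill hs' (decides_mono hsub hdec) hzs'
    have h2 : fill s z (EW i) ≤
        fill s (fun d => decide (d ∈ (EW i).filter fun d => z d = true)) (EW i) := by
      apply fill_congr_le
      intro d hd
      by_cases hzd : z d = true
      · rw [hzd]; symm; simp [hd, hzd]
      · have h0 : z d = false := by simpa using hzd
        rw [h0]; symm; simp [hzd]
    have h3 := hvw i ((EW i).filter fun d => z d = true)
    rw [← hl i hi] at h3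
    exact down_meets _ _ h3 _ (h1.trans h2)
  have hψ' : ∀ i, i < l.length → s' ≤ fill q z (Eψ i) := by
    intro i hi
    have hsub : Eψ i ⊆ H := by
      intro d hd
      refine Finset.mem_union_right _ (Finset.mem_biUnion.2 ⟨i, Finset.mem_range.2 hi, ?_⟩)
      exact Finset.mem_union_right _ hd
    exact le_fill hsq (decides_mono hsub hdec) hzs'
  have hcut : s' ∈ CutN a l.length ψ := by
    intro i
    refine ⟨mem_fimp.2 ?_, mem_fimp.2 ?_⟩
    · intro t ht hia
      have hia' : i ∈ a := hia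
      obtain ⟨hil, hm⟩ := (ha i).1 hia'
      exact ⟨t, le_rfl, hil, hψ i _ hm _ (ht.trans (hψ' i hil))⟩
    · rintro t ht ⟨hil, hm⟩
      have hil' : i < l.length := hil
      refine ⟨t, le_rfl, ?_⟩
      show i ∈ a
      rw [ha i]
      refine ⟨hil', ?_⟩
      rcases hEψ i (fill q z (Eψ i)) (fill_le _ _ _) (decides_fill _ _ _) with h | h
      · exact h
      · exact absurd hm (h t (ht.trans (hψ' i hil')))
  have hfimp := hall a l
  obtain ⟨s'', hs'', hcs⟩ := mem_fimp.1 hfimp s' (hs'.trans hs) ⟨hcut, by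
    intro i
    refine mem_fimp.2 ?_
    intro t ht hi
    have hi' : i < l.length := hi
    exact ⟨t, le_rfl, down_meets _ _ (hW' i hi') _ ht⟩⟩
  rcases hEc a l (fill q z (Ec a l)) (fill_le _ _ _) (decides_fill _ _ _) with h | h
  · exact h
  · exfalso
    refine h s'' (hs''.trans ?_) hcs
    exact le_fill hsq (decides_mono Finset.subset_union_left hdec) hzs'

end Pool.Agent.W891.SG
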